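import Pool.Agent.helper48.EXI.NSS
import Pool.Agent.helper48.AN.Assemble
import Pool.Agent.helper34.NPT.CRD
import Pool.Agent.helper63.EXI.HHV
import Pool.Agent.helper29.EXI.ODM
import Pool.Agent.helper98.EXI.CLO
import Pool.Agent.helper6.EXI.CUT
import Pool.Agent.helper20.EXI.PNT
import Pool.Agent.helper4.EXI.PAI
import Pool.Agent.helper89.EXI.DIS
import Pool.Agent.helper44.EXI.SQR
import Pool.Agent.helper30.EXI.WRO
import Pool.Agent.helper3.EXI.KH1
import Pool.Agent.helper83.EXI.KH2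
import Pool.Agent.helper21.EXI.KH3
import Pool.Agent.helper5.EXI.KHY
import Pool.Agent.helper87.EXI.XNI
import Pool.Agent.helper90.EXI.XOD

/-!
# Block EXI of project NPT (MP_8f32d0_ag): assembly. Hyperelliptic curves of every genus and `p`-rank 0 over every algebraically closed field of characteristic `p ≥ 3`
-/

set_option autoImplicit false

namespace EXI

open scoped Classical
open AN
open Pool.Agent.helper53.AU

theorem x_HHV : HHV_stmt := HHV
theorem x_ODM : ODM_stmt := ODM x_HHV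
theorem x_CLO : CLO_stmt := CLO
theorem x_CUT : CUT_stmt := CUT a_PA a_PC a_PI
theorem x_PNT : PNT_stmt := PNT a_PO
theorem x_PAI : PAI_stmt := PAI
theorem x_DIS : DIS_stmt := DIS a_PL a_PG x_HHV x_ODM x_CLO x_CUT x_PNT x_PAI
theorem x_SQR : SQR_stmt := SQR a_FCR
theorem x_WRO : WRO_stmt := WRO
theorem x_KH1 : KH1_stmt := KH1 x_WRO a_FE0
theorem x_KH2 : KH2_stmt := KH2
theorem x_KH3 : KH3_stmt := KH3 x_KH2
theorem x_KHY : KHY_stmt := KHY x_KH1 x_KH2 x_KH3 a_DJ0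
theorem x_XNI : XNI_stmt := XNI x_HHV x_KH2 (NPT.CRD a_KB a_KD a_KE)

/-- one-point data of genus `g` with nilpotent Hasse-Witt matrix over every algebraically closed field of characteristic `p ≥ 3` -/
theorem odd_data (p : ℕ) [Fact p.Prime] (K : Type) [Field K] [IsAlgClosed K] [CharP K p] (g : ℕ) (hp : p ≠ 2) (hg : 1 ≤ g) :
    ∃ (γ : Fin g → ℕ) (a : ℕ → LS K), IsK γ a ∧ MN p (HW p γ a) g = 0 := by
  obtain ⟨L, iF, iA, iC, t, ht, hMN⟩ := x_DIS p g hg hp
  obtain ⟨t', ht', hMN'⟩ := NSS a_PG x_HHV p g (2 * g + 1) L t ht hMN K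
  have h2 : (2 : K) ≠ 0 := XOD_two p K hp
  obtain ⟨y, hy⟩ := x_SQR K h2 g t'
  obtain ⟨γ, a, hK, hAA⟩ := x_KHY K h2 g t' y hy ht'
  exact ⟨γ, a, hK, x_XNI p K g t' y hp hy hMN' γ a hK hAA⟩

/-- from one-point data to function fields -/
theorem ff_of_data (p : ℕ) [Fact p.Prime] (K : Type) [Field K] [IsAlgClosed K] [CharP K p] (g : ℕ)
    (h : ∃ (γ : Fin g → ℕ) (a : ℕ → LS K), IsK γ a ∧ MN p (HW p γ a) g = 0) :
    ∃ (F : Type) (_ : Field F) (_ : Algebra K F), IsFF K F ∧ IsGenus K F g ∧ AN.PRankZero p K F := by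
  obtain ⟨γ, a, hK, hHW⟩ := h
  obtain ⟨P₀, hP₀⟩ := a_ZB0 K g γ a hK
  have hreg := a_ZB1 p K g γ a hK P₀ hP₀
  have hFF := a_ZA K g γ a hK
  refine ⟨EF γ a, inferInstance, inferInstance, hFF, a_ZB p K g γ a hK, ?_⟩
  exact a_FH1 p K (EF γ a) hFF P₀ (algebraMap (EF γ a) (LS K)) hP₀ g γ a hK hreg hHW

/-- **a curve of genus `g` and `p`-rank 0 exists over every algebraically closed field of characteristic `p ≥ 3`, for every `g ≥ 1`** -/
theorem odd (p : ℕ) [Fact p.Prime] (K : Type) [Field K] [IsAlgClosed K] [CharP K p] (g : ℕ) (hp : p ≠ 2) (hg : 1 ≤ g) :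
    ∃ (F : Type) (_ : Field F) (_ : Algebra K F), IsFF K F ∧ IsGenus K F g ∧ AN.PRankZero p K F :=
  ff_of_data p K g (odd_data p K g hp hg)

end EXI
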