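import Pool.Agent.helper48.EXI.Spec1

/-!
# Block EXI of project NPT (MP_8f32d0_ag): the roots can be taken in every algebraically closed field of characteristic `p`
-/

set_option autoImplicit false

namespace EXI

open scoped Classical
open AN

noncomputable section

/-- a solution in some field of characteristic `p` gives one in every algebraically closed field of characteristic `p` (Nullstellensatz) -/
theorem NSS (hPG : PG_stmt) (hHHV : HHV_stmt) (p : ℕ) [hp : Fact p.Prime] (g N : ℕ) (L : Type) [Field L] [CharP L p] (t : Fin N → L)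
    (ht : Function.Injective t) (hMN : MN p (HH p g t) g = 0) (K : Type) [Field K] [IsAlgClosed K] [CharP K p] :
    ∃ t' : Fin N → K, Function.Injective t' ∧ MN p (HH p g t') g = 0 := by
  letI aL : Algebra (ZMod p) L := ZMod.algebra L p
  letI aK : Algebra (ZMod p) K := ZMod.algebra K p
  let S : Finset L := (Finset.univ.image t) ∪ (Finset.univ.image fun ij : Fin N × Fin N => (t ij.1 - t ij.2)⁻¹)
  let A : Subalgebra (ZMod p) L := Algebra.adjoin (ZMod p) (S : Set L)
  have hfg : A.FG := ⟨S, rfl⟩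
  haveI hft : Algebra.FiniteType (ZMod p) A := A.fg_iff_finiteType.1 hfg
  obtain ⟨M, hM⟩ := Ideal.exists_maximal A
  letI : Field (A ⧸ M) := Ideal.Quotient.field M
  haveI : Algebra.FiniteType (ZMod p) (A ⧸ M) := Algebra.FiniteType.of_surjective (Ideal.Quotient.mkₐ (ZMod p) M) (Ideal.Quotient.mkₐ_surjective (ZMod p) M)
  haveI : Module.Finite (ZMod p) (A ⧸ M) := finite_of_finite_type_of_isJacobsonRing (ZMod p) (A ⧸ M)
  haveI : Algebra.IsAlgebraic (ZMod p) (A ⧸ M) := Algebra.IsAlgebraic.of_finite (ZMod p) (A ⧸ M)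
  let φ : A →+* K := ((IsAlgClosed.lift : (A ⧸ M) →ₐ[ZMod p] K).toRingHom).comp (Ideal.Quotient.mk M)
  have hmem : ∀ i, t i ∈ A := fun i => Algebra.subset_adjoin (by
    show t i ∈ (S : Set L)
    rw [Finset.mem_coe, Finset.mem_union]
    exact Or.inl (Finset.mem_image.2 ⟨i, Finset.mem_univ _, rfl⟩))
  have hmem2 : ∀ i j, (t i - t j)⁻¹ ∈ A := fun i j => Algebra.subset_adjoin (by
    show (t i - t j)⁻¹ ∈ (S : Set L)
    rw [Finset.mem_coe, Finset.mem_union]
    exact Or.inr (Finset.mem_image.2 ⟨(i, j), Finset.mem_univ _, rfl⟩))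
  let tA : Fin N → A := fun i => ⟨t i, hmem i⟩
  refine ⟨fun i => φ (tA i), ?_, ?_⟩
  · intro i j hij
    by_contra hne
    have h1 : t i - t j ≠ 0 := sub_ne_zero.2 fun h => hne (ht h)
    have h2 : (tA i - tA j) * ⟨(t i - t j)⁻¹, hmem2 i j⟩ = 1 := by
      apply Subtype.ext
      show (t i - t j) * (t i - t j)⁻¹ = 1
      exact mul_inv_cancel₀ h1
    have h3 := congrArg φ h2
    rw [map_mul, map_sub, map_one] at h3
    have h4 : φ (tA i) - φ (tA j) = 0 := sub_eq_zero.2 hij
    rw [h4, zero_mul] at h3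
    exact zero_ne_one h3
  · have h1 : MN p (HH p g tA) g = 0 := by
      have h2 : (MN p (HH p g tA) g).map (A.val : A →ₐ[ZMod p] L).toRingHom = 0 := by
        rw [← hPG.1, ← hHHV.1]
        exact hMN
      ext i j
      have h3 : ((A.val : A →ₐ[ZMod p] L).toRingHom) (MN p (HH p g tA) g i j) = 0 := by
        have h4 := congrFun (congrFun h2 i) j
        rw [Matrix.map_apply] at h4
        rw [h4]
        rfl
      have h5 : ((MN p (HH p g tA) g i j : A) : L) = 0 := h3
      rw [Matrix.zero_apply]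
      exact_mod_cast h5
    rw [hHHV.1, hPG.1, h1]
    ext i j
    rw [Matrix.map_apply, Matrix.zero_apply, Matrix.zero_apply, map_zero]

end

end EXI
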