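import Pool.Agent.helper50.NPT.Def

/-!
# Block EXI of project NPT (MP_8f32d0_ag): transport along an isomorphism of the constant fields; cardinality
-/

set_option autoImplicit false

namespace EXI.OF

open Pool.Agent.helper84.GC Pool.Agent.helper50.NP Cardinal

noncomputable section

section transport

variable {K K' F : Type} [Field K] [Field K'] [Field F] [Algebra K F] [Algebra K' F] (e : K ≃+* K')
  (h : ∀ c, algebraMap K F c = algebraMap K' F (e c))

include h

/-- the places are the same -/
def tp : Place K' F ≃ Place K F where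
  toFun P :=
    { ord := P.ord
      ord_zero := P.ord_zero
      ord_mul := P.ord_mul
      ord_add := P.ord_add
      ord_const := fun c hc => by
        rw [h]
        exact P.ord_const _ ((map_ne_zero_iff e e.injective).2 hc)
      ord_unif := P.ord_unif }
  invFun P :=
    { ord := P.ord
      ord_zero := P.ord_zero
      ord_mul := P.ord_mul
      ord_add := P.ord_add
      ord_const := fun c hc => by
        have h1 := P.ord_const (e.symm c) ((map_ne_zero_iff e.symm e.symm.injective).2 hc)
        rwa [h, e.apply_symm_apply] at h1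
      ord_unif := P.ord_unif }
  left_inv P := rfl
  right_inv P := rfl

theorem tp_ord (P : Place K' F) (f : F) : (tp e h P).ord f = P.ord f := rfl

theorem tp_symm_ord (P : Place K F) (f : F) : ((tp e h).symm P).ord f = P.ord f := rfl

theorem smul_eq (c : K) (f : F) : c • f = e c • f := by
  rw [Algebra.smul_def, Algebra.smul_def, h]

theorem mem_span_iff (S : Set F) (x : F) : x ∈ Submodule.span K S ↔ x ∈ Submodule.span K' S := by
  constructor
  · intro hx
    induction hx using Submodule.span_induction with
    | mem y hy => exact Submodule.subset_span hy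
    | zero => exact Submodule.zero_mem _
    | add y z _ _ hy hz => exact Submodule.add_mem _ hy hz
    | smul c y _ hy =>
      rw [smul_eq e h]
      exact Submodule.smul_mem _ _ hy
  · intro hx
    induction hx using Submodule.span_induction with
    | mem y hy => exact Submodule.subset_span hy
    | zero => exact Submodule.zero_mem _
    | add y z _ _ hy hz => exact Submodule.add_mem _ hy hz
    | smul c y _ hy =>
      have h1 : c • y = e.symm c • y := by rw [smul_eq e h, e.apply_symm_apply]
      rw [h1]
      exact Submodule.smul_mem _ _ hy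

theorem finrank_span (S : Set F) : Module.finrank K (Submodule.span K S) = Module.finrank K' (Submodule.span K' S) := by
  let j : Submodule.span K S ≃+ Submodule.span K' S :=
    { toFun := fun x => ⟨x.1, (mem_span_iff e h S x.1).1 x.2⟩
      invFun := fun x => ⟨x.1, (mem_span_iff e h S x.1).2 x.2⟩
      left_inv := fun x => rfl
      right_inv := fun x => rfl
      map_add' := fun x y => rfl }
  unfold Module.finrank
  congr 1
  refine rank_eq_of_equiv_equiv e j e.bijective ?_
  intro r m
  apply Subtype.ext
  exact smul_eq e h r m.1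

theorem transcendental {x : F} (hx : Transcendental K' x) : Transcendental K x := by
  rintro ⟨q, hq, hq0⟩
  refine hx ⟨q.map e.toRingHom, (Polynomial.map_ne_zero_iff e.injective).2 hq, ?_⟩
  rw [Polynomial.aeval_def, Polynomial.eval₂_map]
  rw [Polynomial.aeval_def] at hq0
  have h1 : (algebraMap K' F).comp e.toRingHom = algebraMap K F := by
    ext c
    exact (h c).symm
  rw [h1]
  exact hq0

theorem range_eq : Set.range (algebraMap K F) = Set.range (algebraMap K' F) := by
  ext x
  constructor
  · rintro ⟨c, rfl⟩
    exact ⟨e c, (h c).symm⟩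
  · rintro ⟨c, rfl⟩
    exact ⟨e.symm c, by rw [h, e.apply_symm_apply]⟩

theorem adjoin_eq (S : Set F) (x : F) : x ∈ IntermediateField.adjoin K S ↔ x ∈ IntermediateField.adjoin K' S := by
  have h1 : (IntermediateField.adjoin K S).toSubfield = (IntermediateField.adjoin K' S).toSubfield := by
    rw [IntermediateField.adjoin_toSubfield, IntermediateField.adjoin_toSubfield, range_eq e h]
  constructor
  · intro hx
    have h2 : x ∈ (IntermediateField.adjoin K S).toSubfield := hx
    rw [h1] at h2
    exact h2
  · intro hx
    have h2 : x ∈ (IntermediateField.adjoin K' S).toSubfield := hx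
    rw [← h1] at h2
    exact h2

theorem isFF (hF : IsFF K' F) : IsFF K F := by
  obtain ⟨x, hx, hfd⟩ := hF
  refine ⟨x, transcendental e h hx, ?_⟩
  let e₁ : IntermediateField.adjoin K' ({x} : Set F) ≃+* IntermediateField.adjoin K ({x} : Set F) :=
    { toFun := fun z => ⟨z.1, (adjoin_eq e h _ z.1).2 z.2⟩
      invFun := fun z => ⟨z.1, (adjoin_eq e h _ z.1).1 z.2⟩
      left_inv := fun z => rfl
      right_inv := fun z => rfl
      map_add' := fun z w => rfl
      map_mul' := fun z w => rfl }
  exact Module.Finite.of_equiv_equiv e₁ (RingEquiv.refl F) (by ext z; rfl)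

theorem isGenus {g : ℕ} (hg : IsGenus K' F g) : IsGenus K F g := by
  unfold IsGenus at hg ⊢
  have key : (Set.range fun D : Place K F →₀ ℤ => (D.sum fun _ n => n) + 1 - (Module.finrank K (RR D) : ℤ)) =
      Set.range fun D : Place K' F →₀ ℤ => (D.sum fun _ n => n) + 1 - (Module.finrank K' (RR D) : ℤ) := by
    have hval : ∀ D : Place K' F →₀ ℤ, (((D.equivMapDomain (tp e h)).sum fun _ n => n) + 1 -
        (Module.finrank K (RR (D.equivMapDomain (tp e h))) : ℤ)) = (D.sum fun _ n => n) + 1 - (Module.finrank K' (RR D) : ℤ) := by
      intro D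
      have h1 : ((D.equivMapDomain (tp e h)).sum fun _ n => n) = D.sum fun _ n => n := by
        rw [Finsupp.equivMapDomain_eq_mapDomain, Finsupp.sum_mapDomain_index (fun _ => rfl) (fun _ _ _ => rfl)]
      have h2 : ({f | f = 0 ∨ ∀ P : Place K F, -(D.equivMapDomain (tp e h)) P ≤ P.ord f} : Set F) =
          {f | f = 0 ∨ ∀ P : Place K' F, -D P ≤ P.ord f} := by
        ext f
        refine or_congr Iff.rfl ?_
        constructor
        · intro hf P
          have h3 := hf (tp e h P)
          rw [Finsupp.equivMapDomain_apply, Equiv.symm_apply_apply] at h3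
          exact h3
        · intro hf P
          rw [Finsupp.equivMapDomain_apply]
          exact hf ((tp e h).symm P)
      unfold RR
      rw [h1, h2, finrank_span e h]
    ext z
    constructor
    · rintro ⟨D, rfl⟩
      refine ⟨D.equivMapDomain (tp e h).symm, ?_⟩
      have h1 := hval (D.equivMapDomain (tp e h).symm)
      have h2 : (D.equivMapDomain (tp e h).symm).equivMapDomain (tp e h) = D := by
        ext P
        rw [Finsupp.equivMapDomain_apply, Finsupp.equivMapDomain_apply]
        simp
      rw [h2] at h1
      exact h1.symm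
    · rintro ⟨D, rfl⟩
      exact ⟨D.equivMapDomain (tp e h), hval D⟩
  rw [key]
  exact hg

theorem pRankZero {p : ℕ} (hp : PRankZero p K' F) : PRankZero p K F := by
  intro f hf hP
  exact hp f hf fun P => hP (tp e h P)

theorem wReg_eq {p : ℕ} [Fact p.Prime] (S : Set (Place K' F)) : WReg p (tp e h '' S) = WReg p S := by
  unfold WReg
  congr 1
  ext x
  constructor
  · intro hx n P hP
    refine hx n (tp e h P) ?_
    rintro ⟨Q, hQ, hQP⟩
    exact hP ((tp e h).injective hQP ▸ hQ)
  · intro hx n P hP
    refine hx n ((tp e h).symm P) ?_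
    intro hQ
    exact hP ⟨(tp e h).symm P, hQ, (tp e h).apply_symm_apply P⟩

theorem frobDiv_iff {p : ℕ} [Fact p.Prime] (P Q : Place K' F) (n m : ℕ) :
    FrobDiv p (tp e h P) (tp e h Q) n m ↔ FrobDiv p P Q n m := by
  have h1 : ({tp e h P, tp e h Q} : Set (Place K F)) = tp e h '' {P, Q} := by rw [Set.image_pair]
  have h2 : ({tp e h P} : Set (Place K F)) = tp e h '' {P} := by rw [Set.image_singleton]
  have h3 : ({tp e h Q} : Set (Place K F)) = tp e h '' {Q} := by rw [Set.image_singleton]
  unfold FrobDiv
  rw [h1, h2, h3, wReg_eq, wReg_eq, wReg_eq]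

theorem slopeLE {p : ℕ} [Fact p.Prime] {g : ℕ} (hs : SlopeLE p K' F g) : SlopeLE p K F g := by
  intro P Q hPQ n m hfd
  refine hs ((tp e h).symm P) ((tp e h).symm Q) (fun hc => hPQ ((tp e h).symm.injective hc)) n m ?_
  rw [← frobDiv_iff e h, Equiv.apply_symm_apply, Equiv.apply_symm_apply]
  exact hfd

/-- the differentials are the same -/
theorem kaehler : ∃ κ : KaehlerDifferential K F ≃ₗ[F] KaehlerDifferential K' F,
    ∀ x : F, κ (KaehlerDifferential.D K F x) = KaehlerDifferential.D K' F x := by
  letI a1 : Algebra K K' := e.toRingHom.toAlgebra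
  letI a2 : Algebra K' K := e.symm.toRingHom.toAlgebra
  haveI t1 : IsScalarTower K K' F := IsScalarTower.of_algebraMap_eq fun c => h c
  haveI t2 : IsScalarTower K' K F := IsScalarTower.of_algebraMap_eq fun c => by
    show algebraMap K' F c = algebraMap K F (e.symm c)
    rw [h, e.apply_symm_apply]
  let f := KaehlerDifferential.map K K' F F
  let f' := KaehlerDifferential.map K' K F F
  have hf : ∀ x : F, f (KaehlerDifferential.D K F x) = KaehlerDifferential.D K' F x := fun x =>
    KaehlerDifferential.map_D K K' F F x
  have hf' : ∀ x : F, f' (KaehlerDifferential.D K' F x) = KaehlerDifferential.D K F x := fun x =>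
    KaehlerDifferential.map_D K' K F F x
  have h1 : ∀ ω : KaehlerDifferential K F, f' (f ω) = ω := by
    intro ω
    have hω : ω ∈ Submodule.span F (Set.range (KaehlerDifferential.D K F)) := by
      rw [KaehlerDifferential.span_range_derivation]
      trivial
    induction hω using Submodule.span_induction with
    | mem y hy =>
      obtain ⟨x, rfl⟩ := hy
      rw [hf, hf']
    | zero => rw [map_zero, map_zero]
    | add y z _ _ hy hz => rw [map_add, map_add, hy, hz]
    | smul c y _ hy => rw [map_smul, map_smul, hy]
  have h2 : ∀ ω : KaehlerDifferential K' F, f (f' ω) = ω := by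
    intro ω
    have hω : ω ∈ Submodule.span F (Set.range (KaehlerDifferential.D K' F)) := by
      rw [KaehlerDifferential.span_range_derivation]
      trivial
    induction hω using Submodule.span_induction with
    | mem y hy =>
      obtain ⟨x, rfl⟩ := hy
      rw [hf', hf]
    | zero => rw [map_zero, map_zero]
    | add y z _ _ hy hz => rw [map_add, map_add, hy, hz]
    | smul c y _ hy => rw [map_smul, map_smul, hy]
  refine ⟨LinearEquiv.ofLinear f f' (LinearMap.ext h2) (LinearMap.ext h1), hf⟩

theorem aNumber_eq : aNumber K F = aNumber K' F := by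
  obtain ⟨κ, hκ⟩ := kaehler e h (F := F)
  have hreg : ∀ (P : Place K' F) (ω : KaehlerDifferential K F), RegAt (tp e h P) ω ↔ RegAt P (κ ω) := by
    intro P ω
    constructor
    · rintro ⟨t, f, h1, h2, h3⟩
      exact ⟨t, f, h1, h2, by rw [h3, map_smul, hκ]⟩
    · rintro ⟨t, f, h1, h2, h3⟩
      refine ⟨t, f, h1, h2, κ.injective ?_⟩
      rw [h3, map_smul, hκ]
  have hset : κ '' {ω : KaehlerDifferential K F | (∀ P : Place K F, RegAt P ω) ∧ ∃ x : F, ω = KaehlerDifferential.D K F x} =
      {ω : KaehlerDifferential K' F | (∀ P : Place K' F, RegAt P ω) ∧ ∃ x : F, ω = KaehlerDifferential.D K' F x} := by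
    ext ω
    constructor
    · rintro ⟨ω', ⟨h1, x, h2⟩, rfl⟩
      exact ⟨fun P => (hreg P ω').1 (h1 _), x, by rw [h2, hκ]⟩
    · rintro ⟨h1, x, h2⟩
      refine ⟨κ.symm ω, ⟨fun P => ?_, x, ?_⟩, κ.apply_symm_apply ω⟩
      · have h3 := (hreg ((tp e h).symm P) (κ.symm ω)).2 (by rw [κ.apply_symm_apply]; exact h1 _)
        rwa [Equiv.apply_symm_apply] at h3
      · apply κ.injective
        rw [κ.apply_symm_apply, hκ, h2]
  have hsm : ∀ (c : K) (ω : KaehlerDifferential K F), κ (c • ω) = e c • κ ω := by
    intro c ω
    have h1 : c • ω = algebraMap K F c • ω := (algebraMap_smul F c ω).symm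
    have h2 : e c • κ ω = algebraMap K' F (e c) • κ ω := (algebraMap_smul F (e c) (κ ω)).symm
    rw [h1, h2, map_smul, h]
  unfold aNumber
  rw [← hset]
  set S := {ω : KaehlerDifferential K F | (∀ P : Place K F, RegAt P ω) ∧ ∃ x : F, ω = KaehlerDifferential.D K F x} with hS
  have hmem : ∀ ω, ω ∈ Submodule.span K S ↔ κ ω ∈ Submodule.span K' (κ '' S) := by
    intro ω
    constructor
    · intro hω
      induction hω using Submodule.span_induction with
      | mem y hy => exact Submodule.subset_span ⟨y, hy, rfl⟩
      | zero =>
        rw [map_zero]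
        exact Submodule.zero_mem _
      | add y z _ _ hy hz =>
        rw [map_add]
        exact Submodule.add_mem _ hy hz
      | smul c y _ hy =>
        rw [hsm]
        exact Submodule.smul_mem _ _ hy
    · intro hω
      have key : ∀ η ∈ Submodule.span K' (κ '' S), κ.symm η ∈ Submodule.span K S := by
        intro η hη
        induction hη using Submodule.span_induction with
        | mem y hy =>
          obtain ⟨z, hz, rfl⟩ := hy
          rw [κ.symm_apply_apply]
          exact Submodule.subset_span hz
        | zero =>
          rw [map_zero]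
          exact Submodule.zero_mem _
        | add y z _ _ hy hz =>
          rw [map_add]
          exact Submodule.add_mem _ hy hz
        | smul c y _ hy =>
          have h3 : κ.symm (c • y) = e.symm c • κ.symm y := by
            apply κ.injective
            rw [κ.apply_symm_apply, hsm, e.apply_symm_apply, κ.apply_symm_apply]
          rw [h3]
          exact Submodule.smul_mem _ _ hy
      have h4 := key _ hω
      rwa [κ.symm_apply_apply] at h4
  let j : Submodule.span K S ≃+ Submodule.span K' (κ '' S) :=
    { toFun := fun x => ⟨κ x.1, (hmem x.1).1 x.2⟩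
      invFun := fun x => ⟨κ.symm x.1, (hmem _).2 (by rw [κ.apply_symm_apply]; exact x.2)⟩
      left_inv := fun x => Subtype.ext (κ.symm_apply_apply x.1)
      right_inv := fun x => Subtype.ext (κ.apply_symm_apply x.1)
      map_add' := fun x y => Subtype.ext (map_add κ x.1 y.1) }
  unfold Module.finrank
  congr 1
  refine rank_eq_of_equiv_equiv e j e.bijective ?_
  intro r m
  apply Subtype.ext
  exact hsm r m.1

end transport

/-! ## Cardinality -/

/-- the algebraic closure of `K((t))` has the cardinality of `K` if `#K ^ ℵ₀ = #K` -/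
theorem card_closure (K : Type) [Field K] [Infinite K] (hK : #K ^ ℵ₀ = #K) : #(AlgebraicClosure (LaurentSeries K)) = #K := by
  have h1 : #(LaurentSeries K) ≤ #K := by
    have h2 : #(LaurentSeries K) ≤ #(ℤ → K) :=
      Cardinal.mk_le_of_injective (f := fun f : LaurentSeries K => f.coeff) HahnSeries.coeff_injective
    have h3 : #(ℤ → K) = #K := by
      rw [← Cardinal.power_def, Cardinal.mk_int, hK]
    rwa [h3] at h2
  have h4 : #(AlgebraicClosure (LaurentSeries K)) ≤ max (#(LaurentSeries K)) ℵ₀ :=
    Algebra.IsAlgebraic.cardinalMk_le_max (LaurentSeries K) (AlgebraicClosure (LaurentSeries K))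
  have h5 : #K ≤ #(AlgebraicClosure (LaurentSeries K)) :=
    Cardinal.mk_le_of_injective (f := fun c : K => algebraMap (LaurentSeries K) (AlgebraicClosure (LaurentSeries K)) (HahnSeries.C c))
      ((algebraMap (LaurentSeries K) (AlgebraicClosure (LaurentSeries K))).injective.comp HahnSeries.C_injective)
  exact le_antisymm (h4.trans (max_le h1 (Cardinal.aleph0_le_mk K))) h5

theorem uncountable (K : Type) [Infinite K] (hK : #K ^ ℵ₀ = #K) : ℵ₀ < #K := by
  have h1 : 𝔠 ≤ #K := by
    rw [← hK, ← Cardinal.two_power_aleph0]
    exact Cardinal.power_le_power_right ((Cardinal.natCast_lt_aleph0 (n := 2)).le.trans (Cardinal.aleph0_le_mk K))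
  exact Cardinal.aleph0_lt_continuum.trans_le h1

/-- the isomorphism of `K` and the algebraic closure of `K((t))` -/
theorem exists_equiv (p : ℕ) [Fact p.Prime] (K : Type) [Field K] [IsAlgClosed K] [CharP K p] (hK : #K ^ ℵ₀ = #K) :
    Nonempty (K ≃+* AlgebraicClosure (LaurentSeries K)) := by
  have hinf : Infinite K := IsAlgClosed.instInfinite
  have hc : CharP (AlgebraicClosure (LaurentSeries K)) p :=
    charP_of_injective_ringHom (f := (algebraMap (LaurentSeries K) (AlgebraicClosure (LaurentSeries K))).comp
      (HahnSeries.C : K →+* HahnSeries ℤ K)) (RingHom.injective _) p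
  refine IsAlgClosed.ringEquiv_of_equiv_of_char_eq p (uncountable K hK) ?_
  exact Cardinal.eq.1 (card_closure K hK).symm

end

end EXI.OF
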