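import Pool.Agent.helper48.AN.SpecP

/-!
# Block EXI of project NPT (MP_8f32d0_ag): a curve of genus `g` and `p`-rank 0 exists, for all `g ≥ 1` and all `p ≥ 3`

`y² = ∏_{i ≤ 2g+1} (x - t_i)`. The Hasse-Witt matrix `HH p g t` is a polynomial in the `t_i`; over `B = k[[t_1, .., t_(2g+1)]]` it is nilpotent at the closed point (CLO), so (PL, project an) there is a prime `q` of `B` with `HH` nilpotent modulo `q` and `dim B/q ≥ g + 1`.
CLAIM (DIS): the `t_i` are different modulo `q`. For points where `HH` is nilpotent all roots of `f` have ODD multiplicity (ODM). So if `t_i = t_j` modulo `q` then a third `t_l` agrees with both; cut `B/q` with the `g` equations `t_i = 0` and `t_a = t_b` for `g - 1` disjoint pairs of the remaining `2g - 2` indices (CUT):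
there remains a nontrivial `k[[X]]`-valued point (PO), for which the multiplicity of a nonzero root is even: a contradiction. The curve over the algebraic closure of `Frac (B/q)` is smooth, of genus `g` and `p`-rank 0 (Spec2).

Rules: file `Pool/Agent/<seat>/EXI/XXX.lean`, `import Pool.Agent.helper48.EXI.Spec1` (or Spec2), `namespace EXI`, `open AN`, `theorem XXX (h : YY_stmt) ... : XXX_stmt` as in the lock note; any `XX_stmt` of project an or of this block may be taken as a hypothesis, unused ones dropped.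
Auxiliary lemmas prefixed `XXX_`. API of Laurent series `LS R`: `helper48/AN/Base.lean` (`cf`, `LS.ext`, `cf_mul_finset`, `GE_mul`, `cf_mul_lead`, `cf_pow_char`, `mp`, ...). In this file `s = 1/x`, so `x = mono (-1) 1`.
-/

set_option autoImplicit false

namespace EXI

open scoped Classical
open AN

noncomputable section

/-- `f = ∏ (x - t_i)`, `x = 1/s` -/
def fx {R : Type} [CommRing R] {N : ℕ} (t : Fin N → R) : LS R := ∏ i, (mono (-1) (1 : R) - LS.C (t i))

/-- the Hasse-Witt matrix of `y² = f`: the coefficient of `x^(p j' - i')` in `f^((p-1)/2)`, `i' = i + 1`, `j' = j + 1` -/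
def HH (p g : ℕ) {R : Type} [CommRing R] {N : ℕ} (t : Fin N → R) : Matrix (Fin g) (Fin g) R :=
  fun i j => cf (fx t ^ ((p - 1) / 2)) (((i : ℕ) : ℤ) + 1 - p * (((j : ℕ) : ℤ) + 1))

/-- the Frobenius `y ξ ↦ (y ξ)^p = y (f^((p-1)/2) ξ^p)` -/
def Fi (p : ℕ) {R : Type} [CommRing R] {N : ℕ} (t : Fin N → R) (ξ : LS R) : LS R := fx t ^ ((p - 1) / 2) * ξ ^ p

/-- HHV: (1) base change: `mp φ` is a ring homomorphism, `mp φ (fx t) = fx (φ ∘ t)` (`mp_mono`, `mp_C`, `map_prod`), `cf_mp`. (2) Let `F0 = f^((p-1)/2)`, `M = (2g+1)(p-1)/2`: `F0 ∈ GE (-M)` and `cf F0 n = 0` for `n > 0` (a product of factors with only the coefficients `-1`, `0`). Vector lemma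
`cf (F0 * ξ^p) (i') = ∑_{j' = 1..g} cf F0 (i' - p j') * (cf ξ j')^p`, `1 ≤ i' ≤ g`: by `cf_mul_finset` the left hand side is `∑_{m = -M}^{0} cf F0 m * cf (ξ^p) (i' - m)` and `cf (ξ^p) n = (cf ξ (n/p))^p` or `0` (`cf_pow_char`); `i' - m = p j'` implies `j' ≥ 1` and `p j' ≤ g + M < p (g + 1)` (as `M = p g - g + (p-1)/2`), so `j' ≤ g`. Then induction on `n`
(`MN p H (n+1) = H * frM p (MN p H n)`, `Function.iterate_succ_apply'`, the `p`-th power is additive in characteristic `p`: `sum_pow_char`). -/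
def HHV_stmt : Prop :=
  (∀ (p g N : ℕ) (R R' : Type) [CommRing R] [CommRing R'] (φ : R →+* R') (t : Fin N → R), HH p g (fun i => φ (t i)) = (HH p g t).map φ) ∧
  ∀ (p : ℕ) [Fact p.Prime] (g : ℕ) (R : Type) [CommRing R] [CharP R p] (t : Fin (2 * g + 1) → R), p ≠ 2 → ∀ (n : ℕ) (ξ : LS R) (i : Fin g),
    cf ((Fi p t)^[n] ξ) (((i : ℕ) : ℤ) + 1) = (MN p (HH p g t) n).mulVec (fun j => (cf ξ (((j : ℕ) : ℤ) + 1)) ^ (p ^ n)) i

/-- ODM: if the Hasse-Witt matrix is nilpotent then all roots have odd multiplicity. (`LS K` is a field.)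
Proof: suppose the multiplicity of `v` is `2m`, `m ≥ 1`; `2m ≤ 2g + 1`, so `m ≤ g`. `ev : K[X] →+* LS K`, `X ↦ x = mono (-1) 1`, constants by `LS.C` (`Polynomial.eval₂RingHom`); the elements of its range have `cf _ n = 0` for `n > 0`, and `ev` is injective. `f = (x - v)^(2m) ev h`, `h = ∏_{t_i ≠ v} (X - t_i)`, `h(v) ≠ 0`.
Let `ξ = (x - v)^(-m)`. By induction `(Fi p t)^[n] ξ = ev P_n * (x - v)^(-m)` with `P_n(v) ≠ 0`: `P_0 = 1`, `P_(n+1) = h^((p-1)/2) P_n^p` (`(x-v)^(m(p-1)) (x-v)^(-mp) = (x-v)^(-m)`). For `n = g`, HHV (2): `Z = ev P_g * (x - v)^(-m)` has the coefficients `0` at `1, .., g`. Let `Q' = ev (∑_{n ≤ M} cf Z (-n) X^n)` (`M` large, `exists_lb_nat`):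
`Z - Q' ∈ GE (g+1)`, so `(Z - Q') (x - v)^m = ev P_g - ev (Q (X - v)^m) ∈ GE (g + 1 - m) ⊆ GE 1`, and it is in the range of `ev`, so `0`: `P_g = Q (X - v)^m`, so `P_g(v) = 0`, a contradiction. -/
def ODM_stmt : Prop := ∀ (p : ℕ) [Fact p.Prime] (g : ℕ) (K : Type) [Field K] [CharP K p] (t : Fin (2 * g + 1) → K), p ≠ 2 →
  MN p (HH p g t) g = 0 → ∀ v : K, (∃ i, t i = v) → Odd (Finset.univ.filter (fun i => t i = v)).card

/-- CLO: the closed point. Proof: `fx 0 = mono (-(2g+1)) 1`, so `HH i j = 1` if `p (j+1) - (i+1) = (2g+1)(p-1)/2`, that is, if `2g - 1 - 2i = p (2g - 1 - 2j)`, and `0` otherwise (`cf_mono`). By induction on `n`: `MN p HH n i j ≠ 0` implies `2g - 1 - 2i = p^n (2g - 1 - 2j)`; for `n = g` this is impossible as `2g - 1 - 2j ≥ 1` and `2g - 1 - 2i ≤ 2g - 1 < 3^g ≤ p^g`. -/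
def CLO_stmt : Prop := ∀ (p : ℕ) [Fact p.Prime] (g : ℕ) (K : Type) [Field K] [CharP K p], p ≠ 2 → MN p (HH p g (fun _ : Fin (2 * g + 1) => (0 : K))) g = 0

/-- CUT: cutting with one equation. Model: the second half of row PK (see its file in `Pool/Agent/*/AN/PK.lean`). If `l ∈ q`: `q' = q`, `n' = n + 1`. Otherwise let `R = B/q`, `φ : P = BB k (n+1) → R` injective and finite, `x` = the image of `l`, `x ≠ 0`; `P` is factorial (PA), so integrally closed; `Fr` = the fraction field of `R`, `F ∈ P[T]` the minimal polynomial of `x` over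
`P` (`minpoly P x`; `minpoly.isIntegrallyClosed_..`: every `G ∈ P[T]` with `G(x) = 0` is a multiple of `F`), `c = F(0)`. `c ≠ 0` (`F` is irreducible and `x ≠ 0`). `c` is not a unit: `c` is in the ideal `x R`, and `x` is not a unit of the local ring `R` (`l` is in the maximal ideal of `B`). Let `π` be a prime factor of `c`.
`S = P[x] = Algebra.adjoin P {x} ≅ P[T]/(F)`; the ideal `𝔮₀ = {G(x) : π ∣ G(0)}` of `S` is well defined and prime (`S → P/(π)`, `G(x) ↦ G(0)`, well defined because `F(0) ∈ (π)`), it contains `x` and `𝔮₀ ∩ P = (π)`. `R` is integral over `S`: lying over gives a prime `Q` of `R` with `Q ∩ S = 𝔮₀` (`Ideal.exists_ideal_over_prime_of_isIntegral`..), so `x ∈ Q`, `Q ∩ P = (π)`.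
`q'` = the inverse image of `Q` in `B`: `P/(π) → B/q'` is injective and finite; compose with PC (as in PK): `Cfin k N q' n`. -/
def CUT_stmt : Prop := ∀ (k : Type) [Field k] [IsAlgClosed k] (N n : ℕ) (q : Ideal (BB k N)), q.IsPrime → Cfin k N q (n + 1) →
  ∀ l : BB k N, MvPowerSeries.constantCoeff l = 0 → ∃ (q' : Ideal (BB k N)) (n' : ℕ), q'.IsPrime ∧ q ≤ q' ∧ l ∈ q' ∧ n ≤ n' ∧ Cfin k N q' n'

/-- PNT: a nontrivial point. Proof: (a) an element `b` of `B` with constant term 0 is in the ideal of the `X_i`: write `b = ∑_i X_i b_i`, where `b_i` collects the monomials `X^α` whose first nonzero index is `i` (coefficients `(b_i)_β = b_(β + e_i)` if `β_j = 0` for all `j < i`, and `0` otherwise; `MvPowerSeries.coeff_X_mul`..; or induction on `N`).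
(b) `φ : BB k (n+1) → B/q` injective; let `μ ∈ B` be a lift of `φ (X_0)`, made of constant term 0 (if its constant term were `c ≠ 0`, `μ` would be a unit of `B`, and `φ X_0 - c'`... : `φ X_0` is not a unit since `R` is integral over `P` and `X_0` is not a unit of `P`: `IsUnit (φ x) → IsUnit x` for an injective integral map; so `μ` is not a unit, its constant term is 0). `μ ∉ q`.
PO: `Φ` with `Φ(q) = 0`, `Φ μ ≠ 0`. If all `Φ (X_i) = 0` then `Φ μ = 0` by (a). -/
def PNT_stmt : Prop := ∀ (k : Type) [Field k] [IsAlgClosed k] (N n : ℕ) (q : Ideal (BB k N)), q.IsPrime → Cfin k N q (n + 1) →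
  ∃ Φ : BB k N →ₐ[k] PowerSeries k, (∀ b ∈ q, Φ b = 0) ∧ ∃ i, Φ (MvPowerSeries.X i) ≠ 0

/-- PAI: pairing of indices (PURE, short). For `N = 2g + 1` and different `i, j, l` there is a set of `g` conditions: a function `e : Fin g → Fin N × Fin N` such that for every `τ : Fin N → T` (`T` any type, `o : T`) with `τ i = τ j`, `τ i = τ l`, `τ (e 0).1 = o` and `τ (e m).1 = τ (e m).2` for `m ≥ 1`: for every `v ≠ o` the number of the indices with `τ = v` is even.
Proof: `(e 0) = (i, i)`; `e m`, `m = 1..g-1`, a partition of `Fin N \ {i, j, l}` into pairs (a bijection of this set with `Fin (g-1) × Fin 2`, cardinality `2g - 2`). The indices with `τ = v ≠ o` are those of the pairs with value `v`, twice their number. -/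
def PAI_stmt : Prop := ∀ (g : ℕ), 1 ≤ g → ∀ i j l : Fin (2 * g + 1), i ≠ j → i ≠ l → j ≠ l → ∃ e : Fin g → Fin (2 * g + 1) × Fin (2 * g + 1),
  ∀ (T : Type) (o : T) (τ : Fin (2 * g + 1) → T), τ i = τ j → τ i = τ l → (∀ m : Fin g, (m : ℕ) = 0 → τ (e m).1 = o) → (∀ m : Fin g, (m : ℕ) ≠ 0 → τ (e m).1 = τ (e m).2) →
    ∀ v : T, v ≠ o → Even (Finset.univ.filter (fun a => τ a = v)).card

/-- DIS: different roots. Proof: `k` = an algebraic closure of `ZMod p`, `N = 2g + 1`, `B = BB k N`, `H = HH p g X` (`X i = MvPowerSeries.X i`). `PNil (H.map constantCoeff)`: HHV (1) and CLO. PL: `q`, `n` with `N ≤ n + g`, so `n ≥ g + 1`, `MN p H g` in `q`.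
Let `D = B/q`, `K₀` = its fraction field, `τ_i` the image of `X_i`. `MN p (HH p g τ) g = 0` (HHV (1), PG (1)). Suppose `τ_i = τ_j`, `i ≠ j`. ODM for `v = τ_i`: the number of the indices with this value is odd and `≥ 2`, so there is a third one, `l`. PAI: `e`. Apply CUT `g` times, to the elements `X_(e 0).1` and `X_(e m).1 - X_(e m).2` (induction: `Cfin k N q n`, a list of
`r ≤ n` elements with constant term 0 gives `q' ⊇ q` containing them, `Cfin k N q' n'`, `n ≤ n' + r`): `n' ≥ 1`. PNT: `Φ`. Over the field `LaurentSeries k` (or the fraction field of `PowerSeries k`) the roots are `Φ (X_i)`, `MN = 0` (HHV (1), PG (1)), ODM: all multiplicities are odd; but some `Φ (X_a) ≠ 0` and PAI gives an even multiplicity. So `τ` is injective;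
`L` = algebraic closure of `K₀`. -/
def DIS_stmt : Prop := ∀ (p : ℕ) [Fact p.Prime] (g : ℕ), 1 ≤ g → p ≠ 2 → ∃ (L : Type) (_ : Field L) (_ : IsAlgClosed L) (_ : CharP L p) (t : Fin (2 * g + 1) → L),
  Function.Injective t ∧ MN p (HH p g t) g = 0

end

end EXI
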