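import Pool.Agent.helper48.EXI.Spec1
import Pool.Agent.helper48.AN.SpecZ
import Pool.Agent.helper50.NPT.Spec1

/-!
# Block EXI of project NPT (MP_8f32d0_ag), part 2: the curve `y² = ∏ (x - t_i)` over an algebraically closed field of characteristic `p ≥ 3`, different `t_i`

Now `s` is a coordinate at infinity of the curve with `x = s^(-2)`; `E2 : LS R → LS R`, `s ↦ s²`, so `E2 (fx t) = ∏ (x - t_i)` in this coordinate. `y` is an odd Laurent series of order `-(2g+1)` with `y² = E2 (fx t)` (SQR). `A = VV y` = the span of `x^n`, `x^n y`.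
Rules as in `Spec1.lean` (`import Pool.Agent.helper48.EXI.Spec2`).
-/

set_option autoImplicit false

namespace EXI

open scoped Classical
open AN
open Pool.Agent.helper53.AU

noncomputable section

/-- multiplication by 2 -/
def dbl : ℤ →+ ℤ where
  toFun n := 2 * n
  map_zero' := rfl
  map_add' a b := by ring

theorem dbl_inj : Function.Injective dbl := fun a b h => by
  have h1 : 2 * a = 2 * b := h
  omega

theorem dbl_le (a b : ℤ) : dbl a ≤ dbl b ↔ a ≤ b := by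
  show 2 * a ≤ 2 * b ↔ a ≤ b
  omega

/-- `s ↦ s²` -/
def E2 {R : Type} [CommRing R] : LS R →+* LS R :=
  (HahnSeries.embDomainRingHom dbl dbl_inj dbl_le : HahnSeries ℤ R →+* HahnSeries ℤ R)

theorem cf_E2_even {R : Type} [CommRing R] (f : LS R) (n : ℤ) : cf (E2 f) (2 * n) = cf f n :=
  HahnSeries.embDomain_coeff (f := ⟨⟨dbl, dbl_inj⟩, dbl_le _ _⟩) (a := n)

theorem cf_E2_odd {R : Type} [CommRing R] (f : LS R) (n : ℤ) (h : ¬ Even n) : cf (E2 f) n = 0 := by
  refine HahnSeries.embDomain_notin_range (f := ⟨⟨dbl, dbl_inj⟩, dbl_le _ _⟩) ?_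
  rintro ⟨m, hm⟩
  apply h
  have h1 : 2 * m = n := hm
  exact ⟨m, by omega⟩

/-- the functions regular outside infinity -/
def VV {R : Type} [CommRing R] (y : LS R) : Submodule R (LS R) :=
  Submodule.span R {z | ∃ n : ℕ, z = mono (-(2 * (n : ℤ))) 1 ∨ z = mono (-(2 * (n : ℤ))) 1 * y}

/-- `y² = ∏ (x - t_i)` -/
structure IsY {R : Type} [CommRing R] {g : ℕ} (t : Fin (2 * g + 1) → R) (y : LS R) : Prop where
  sq : y ^ 2 = E2 (fx t)
  ord : y ∈ GE R (-(2 * (g : ℤ) + 1))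
  lead : IsUnit (cf y (-(2 * (g : ℤ) + 1)))
  odd : ∀ n : ℤ, Even n → cf y n = 0

/-- SQR: the square root. Proof: `w = E2 (fx t) * mono (4 * g) 1` has order `-2`, leading coefficient `1` (`fx t` has order `-(2g+1)`, leading coefficient `1`). FCR (`helper48/AN/SpecF.lean`, `n = 2`): `σ ∈ GE 1`, `cf σ 1 ≠ 0`, `σ^2 * w = 1`. `y = (mono (2 * g) 1 * σ)⁻¹` in the field `LS L`: `y² = mono (-4g) 1 * w = E2 (fx t)`. Order: `y * (mono (2g) 1 * σ) = 1`.
Odd: let `ρ : LS L → LS L`, `s ↦ -s` (`cf (ρ f) n = (-1)^n cf f n`, a ring homomorphism: define by coefficients, or write `y = E2 a + mono 1 1 * E2 b` (even and odd part) and use `y² = E2 (..)`: the odd part of `y²` is `2 * mono 1 1 * E2 (a b) = 0`, so `a b = 0`, so `a = 0` or `b = 0`; the order of `y` is odd, so `a = 0`). -/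
def SQR_stmt : Prop := ∀ (L : Type) [Field L] [IsAlgClosed L], (2 : L) ≠ 0 → ∀ (g : ℕ) (t : Fin (2 * g + 1) → L), ∃ y : LS L, IsY t y

/-- WRO: spaces spanned by elements of different orders (PURE). `S` a set of natural numbers, `w r` of order exactly `-r` for `r ∈ S`, `V` their span. (1) a nonzero element of `V` has an order `-r`, `r ∈ S`: in `∑ c_r w_r` (finite) take the largest `r` with `c_r ≠ 0`. So `V ⊓ GE 1 = ⊥`, (2) `V ⊓ GE (-m)` is the span of the `w r`, `r ∈ S`, `r ≤ m`, which are linearly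
independent (by (1)); its dimension is the number of the `r ∈ S`, `r ≤ m` (`finrank_span_eq_card`). -/
def WRO_stmt : Prop := ∀ (k : Type) [Field k] (S : Set ℕ) (w : ℕ → LS k), (∀ r ∈ S, w r ∈ GE k (-(r : ℤ)) ∧ cf (w r) (-(r : ℤ)) ≠ 0) →
  ∀ V : Submodule k (LS k), V = Submodule.span k (w '' S) → V ⊓ GE k 1 = ⊥ ∧
    (∀ v ∈ V, v ≠ 0 → ∃ r ∈ S, v ∈ GE k (-(r : ℤ)) ∧ cf v (-(r : ℤ)) ≠ 0) ∧
    ∀ m : ℕ, Module.finrank k (V ⊓ GE k (-(m : ℤ)) : Submodule k (LS k)) = ((Finset.range (m + 1)).filter (fun r => r ∈ S)).card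

/-- KH1: the echelon basis. Proof: WRO for `S = {r | Even r ∨ 2g+1 ≤ r}`, `w r = mono (-r) 1` for `r` even and `w (2g+1+2n) = mono (-2n) 1 * y` (order `-(2g+1) - 2n`, `cf_mul_lead`); the span is `VV y`. The number of the `r ∈ S`, `r ≤ m`, is `m + 1 - g` for `m ≥ 2g` (the complement is `{1, 3, .., 2g-1}`). FE0 (`helper48/AN/SpecF.lean`, `e = 0`, `G = g`): `γ`, `a`.
`0 < γ i`: otherwise FE0 (fifth part) for `v = 1 ∈ V` gives `1 = 0`. `a 0 = 1`: `0` is not a gap; `a 0 - 1 ∈ V = span` of the `a r`; an element `∑ x_r a_r` of this span has the coefficient `x_r` at `-r`, and those of `a 0 - 1` are 0. -/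
def KH1_stmt : Prop := ∀ (L : Type) [Field L] (g : ℕ) (t : Fin (2 * g + 1) → L) (y : LS L), IsY t y →
  ∃ (γ : Fin g → ℕ) (a : ℕ → LS L), Function.Injective γ ∧ (∀ i, 0 < γ i) ∧ a 0 = 1 ∧
    (∀ r r' : ℕ, ¬ Gp γ r → ¬ Gp γ r' → cf (a r) (-(r' : ℤ)) = if r = r' then 1 else 0) ∧ AA γ a = VV y

/-- KH2: `A` is a ring, and the residue theorem. Proof: products of the generators: `mono (-2(n+m)) 1`, times `y`, or times `y² = E2 (fx t)`, which is a combination of `mono (-2 i) 1`, `i ≤ 2g+1` (`cf (fx t) n = 0` for `n > 0` and `n < -(2g+1)`; `E2 (mono n c) = mono (2 n) c`). (`Submodule.span_induction` twice.)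
Residues, for generators (bilinear): write `x = mono (-2) 1`, `dd` raises parity: `dd` of an even series is odd and conversely. `res (x^n dd x^m)`: `x^n dd x^m = mono (-2n-2m-1) (-2m)`, residue `0` (`m = 0` if `n + m = 0`). `res (x^n dd (x^m y))`, `res (x^n y dd x^m)`: even series, residue `0`. `res (x^n y dd (x^m y))`: `= x^n (dd x^m) y² + x^(n+m) y dd y`, `2 y dd y = dd (y²)`:
twice it is `2 x^n (dd x^m) E2 (fx t) + x^(n+m) dd (E2 (fx t))`, a combination of terms `x^i dd x^j`, residue `0`; `2 ≠ 0`. -/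
def KH2_stmt : Prop := ∀ (L : Type) [Field L], (2 : L) ≠ 0 → ∀ (g : ℕ) (t : Fin (2 * g + 1) → L) (y : LS L), IsY t y →
  (∀ f ∈ VV y, ∀ h ∈ VV y, f * h ∈ VV y) ∧ ∀ f ∈ VV y, ∀ h ∈ VV y, res (f * dd h) = 0

/-- KH3: duality and smoothness. (The `t_i` are different, so `f` and `f'` are coprime.)
Proof: `x = mono (-2) 1`, `ξ = dd x = mono (-3) (-2)`, `W = ξ / y` (`= dx/y`). (a) `η = W * w`, `w = η y / ξ ∈ LS L`. Write `w = E2 a + E2 b * y` (even part; the odd part divided by `y` is even; an even series is `E2` of a series). (b) For all `n ≥ 0`: `0 = res (x^n η) = res (x^n E2 a W) + res (x^n E2 b ξ)`; the first series is even (`W` is even), so `res (x^n E2 b ξ) = 0`: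
`-2 cf (E2 b) (2n + 2) = 0`, so `cf b (n + 1) = 0`. `0 = res (x^n y η) = res (x^n E2 a ξ) + res (x^n E2 b y ξ)`, the last series is even: `cf a (n + 1) = 0`. So `a`, `b` have only coefficients at `n ≤ 0` and `w ∈ VV y`. (c) `W ∈ A dA`: `F = ∏ (X - t_i)` and its derivative are coprime (`Polynomial.Separable`, `separable_prod_X_sub_C_iff`), `U F + V F' = 1`; with `e : L[X] → LS L`, `X ↦ x`:
`e F = y²`, `(e F') ξ = dd (y²) = 2 y dd y`, so `W = (e U y² + e V e F') ξ / y = (e U) y dd x + 2 (e V) dd y`. (d) `η = w W`, `w ∈ VV y`; KH2: `A · (A dA) ⊆ A dA`. -/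
def KH3_stmt : Prop := ∀ (L : Type) [Field L], (2 : L) ≠ 0 → ∀ (g : ℕ) (t : Fin (2 * g + 1) → L) (y : LS L), IsY t y → Function.Injective t →
  ∀ η : LS L, (∀ v ∈ VV y, res (v * η) = 0) → η ∈ Submodule.span L {z : LS L | ∃ f ∈ VV y, ∃ h ∈ VV y, z = f * dd h}

/-- KHY: the one-point data of the hyperelliptic curve. Proof: KH1; `IsK.mul`, `IsK.res0`: KH2; `IsK.gen`: `om γ a n` is orthogonal to all `a r` (DJ0, first part), so to `AA γ a = VV y`; KH3, and `OmA γ a` is the span in KH3 by definition (`AA γ a = VV y`). -/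
def KHY_stmt : Prop := ∀ (L : Type) [Field L], (2 : L) ≠ 0 → ∀ (g : ℕ) (t : Fin (2 * g + 1) → L) (y : LS L), IsY t y → Function.Injective t →
  ∃ (γ : Fin g → ℕ) (a : ℕ → LS L), IsK γ a ∧ AA γ a = VV y

/-- XNI: the Hasse-Witt matrix of the one-point data is nilpotent. Proof: (1) every `f ∈ LS L` is `v + y E2 ξ + o`, `v ∈ VV y`, `o ∈ PS L`, `ξ ∈ LS L` with `cf ξ n = 0` for `n ≤ 0`: the even part of `f` is (polynomial in `x`) + (element of `PS`); the odd part is `y E2 ξ₀`, and `ξ₀ = (ξ₀)_(n ≤ 0) + ξ`, `y E2 ((ξ₀)_(n ≤ 0)) ∈ VV y`.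
(2) `(y E2 ξ)^p = y E2 (Fi p t ξ)`: `y^p = y (y²)^((p-1)/2)`. So `(y E2 ξ)^(p^g) = y E2 ζ`, `ζ = (Fi p t)^[g] ξ`, and `cf ζ i' = 0` for `1 ≤ i' ≤ g` by HHV (2) and the hypothesis: `y E2 ζ = y E2 (ζ_(n ≤ 0)) + y E2 (ζ_(n > g)) ∈ VV y + PS` (order `≥ -(2g+1) + 2(g+1) = 1`). (3) So `f^(p^g) ∈ VV y + PS` for all `f` (characteristic `p`; `VV y`, `PS` are stable under powers: KH2).
(4) CRD (NPT, `helper50/NPT/Spec1.lean`; `crd` = coordinates of the class of `f` modulo `A + PS`): `crd (f^(p^n)) = (Fr p H)^[n] (crd f)`, `H = HW p γ a` (part 4), so `(Fr p H)^[g] (crd f) = 0` (part 2, `AA γ a = VV y`); for `f = ee γ e_j`, `e_j` a basis vector: `crd f = e_j` (part 3) and `(Fr p H)^[g] e_j = MN p H g *ᵥ e_j` (`(Fr p H)^[n] x = MN p H n *ᵥ (frV p)^[n] x` by induction), the `j`-th column. -/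
def XNI_stmt : Prop := ∀ (p : ℕ) [Fact p.Prime] (L : Type) [Field L] [CharP L p] (g : ℕ) (t : Fin (2 * g + 1) → L) (y : LS L), p ≠ 2 → IsY t y →
  MN p (HH p g t) g = 0 → ∀ (γ : Fin g → ℕ) (a : ℕ → LS L), IsK γ a → AA γ a = VV y → MN p (HW p γ a) g = 0

/-- XOD: ASSEMBLY for `p ≥ 3`. Proof: DIS: `L`, `t`. SQR: `y`. KHY: `γ`, `a`. `F = EF γ a`: ZA, ZB, ZB0 (`P₀`), ZB1, XNI, FH1 (`ι = algebraMap (EF γ a) (LS L)`). -/
def XOD_stmt : Prop := ∀ (p : ℕ) [Fact p.Prime] (g : ℕ), p ≠ 2 → 1 ≤ g → ∃ (k : Type) (_ : Field k) (_ : IsAlgClosed k) (_ : CharP k p) (F : Type) (_ : Field F) (_ : Algebra k F),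
  IsFF k F ∧ IsGenus k F g ∧ AN.PRankZero p k F

end

end EXI
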